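import Mathlib
import Pool.Agent.H430Z.FreePMain

set_option autoImplicit false

namespace Pool.Agent.Results.MP_31efb7_an.ABoundFails

open Pool.Agent.H430Z.FreeP

/-- For all `0 < p ≤ q ≤ 1` with `p < 1` one has `sup_n A_p^q(n) > 2 ^ (1 / q)`. -/
theorem result : ∀ p q : ℝ, 0 < p → p ≤ q → q ≤ 1 → p < 1 →
    ENNReal.ofReal (2 ^ (1 / q)) < ⨆ n : ℕ, amenConst p q n :=
  fun p q hp hpq _ hp1 => main p q hp hpq hp1

end Pool.Agent.Results.MP_31efb7_an.ABoundFails
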